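import Pool.Agent.H20.Ramm

set_option autoImplicit false

namespace Pool.Agent.Results.MP_f60174_an.NonUnique

open MvPolynomial MeasureTheory Pool.Agent.H20.Ramm
open scoped ContDiff

/-- Partial derivative in the i-th coordinate direction. -/
noncomputable def pd (i : Fin 2) (w : EuclideanSpace ℝ (Fin 2) → ℝ)
    (x : EuclideanSpace ℝ (Fin 2)) : ℝ :=
  fderiv ℝ w x (EuclideanSpace.single i 1)

/-- The divergence-form operator with matrix A and zero-order coefficient 1. -/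
noncomputable def Op (A : Fin 2 → Fin 2 → EuclideanSpace ℝ (Fin 2) → ℝ)
    (w : EuclideanSpace ℝ (Fin 2) → ℝ) (x : EuclideanSpace ℝ (Fin 2)) : ℝ :=
  -(∑ i, ∑ j, pd i (fun y => A i j y * pd j w y) x) + w x

/-- Smooth, symmetric, uniformly elliptic on the closed disc, and strictly positive. -/
def Good (A : Fin 2 → Fin 2 → EuclideanSpace ℝ (Fin 2) → ℝ) : Prop :=
  (∀ i j, ContDiff ℝ ∞ (A i j)) ∧ (∀ i j, A i j = A j i) ∧
  (∀ x ∈ Metric.closedBall (0 : EuclideanSpace ℝ (Fin 2)) 1, ∀ ξ : Fin 2 → ℝ,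
    ∑ i, ξ i ^ 2 ≤ ∑ i, ∑ j, A i j x * ξ i * ξ j) ∧
  ∀ w : EuclideanSpace ℝ (Fin 2) → ℝ, ContDiff ℝ 2 w → tsupport w ⊆ Metric.ball 0 1 →
    ∫ x, w x ^ 2 ≤ ∫ x, Op A w x * w x

abbrev E : Type := EuclideanSpace ℝ (Fin 2)
abbrev P : Type := MvPolynomial (Fin 2) ℝ

noncomputable def ev (p : P) (x : E) : ℝ := eval (fun i => x i) p

theorem ev_add (p q : P) : ev (p + q) = fun x => ev p x + ev q x := by ext; simp [ev]
theorem ev_mul (p q : P) : ev (p * q) = fun x => ev p x * ev q x := by ext; simp [ev]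
theorem ev_C (a : ℝ) : ev (C a) = fun _ => a := by ext; simp [ev]
theorem ev_X (i : Fin 2) : ev (X i) = fun x => x i := by ext; simp [ev]

theorem ev_smooth (p : P) : ContDiff ℝ ∞ (ev p) := by
  induction p using MvPolynomial.induction_on with
  | C a => rw [ev_C]; exact contDiff_const
  | add p q hp hq => rw [ev_add]; exact hp.add hq
  | mul_X p i hp => rw [ev_mul, ev_X]; exact hp.mul (by fun_prop)

theorem ev_diff (p : P) (x : E) : DifferentiableAt ℝ (ev p) x :=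
  (ev_smooth p).differentiable (by simp) x

theorem pd_ev (i : Fin 2) (p : P) : pd i (ev p) = ev (pderiv i p) := by
  ext x
  induction p using MvPolynomial.induction_on with
  | C a => simp [pd, ev_C, ev]
  | add p q hp hq =>
    simp only [map_add, ev_add]
    rw [← hp, ← hq, pd, fderiv_fun_add (ev_diff p x) (ev_diff q x)]
    rfl
  | mul_X p j hp =>
    have h : pd i (ev (X j)) x = ev (pderiv i (X j)) x := by
      rw [ev_X, pd]
      have : HasFDerivAt (fun x : E => x j) (EuclideanSpace.proj (𝕜 := ℝ) j) x :=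
        (EuclideanSpace.proj (𝕜 := ℝ) j).hasFDerivAt
      rw [this.fderiv]
      rcases eq_or_ne i j with rfl | hij
      · simp [ev]
      · simp [ev, hij.symm]
    simp only [pderiv_mul, ev_add, ev_mul]
    rw [← hp, ← h, pd, fderiv_fun_mul (ev_diff p x) (ev_diff _ x)]
    simp [pd]
    ring

theorem Op_ev (A : Fin 2 → Fin 2 → P) (u : P) (x : E) : Op (fun i j => ev (A i j)) (ev u) x =
    ev (-(∑ i, ∑ j, pderiv i (A i j * pderiv j u)) + u) x := by
  simp only [Op, pd_ev, ← ev_mul]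
  simp [ev]

noncomputable def r : P := X 0 ^ 2 + X 1 ^ 2

noncomputable def mat (α β δ : P) : Fin 2 → Fin 2 → P :=
  ![![1 + α - C 2 * β * X 0 * X 1 + δ * X 1 ^ 2, β * (X 0 ^ 2 - X 1 ^ 2) - δ * X 0 * X 1],
    ![β * (X 0 ^ 2 - X 1 ^ 2) - δ * X 0 * X 1, 1 + α + C 2 * β * X 0 * X 1 + δ * X 0 ^ 2]]

theorem quad (α β δ x y s t : ℝ) (h1 : 0 ≤ α - 1)
    (h2 : 0 ≤ α * (α + (x ^ 2 + y ^ 2) * δ) - (x ^ 2 + y ^ 2) ^ 2 * β ^ 2) :
    s ^ 2 + t ^ 2 ≤ (1 + α - 2 * β * x * y + δ * y ^ 2) * s * s +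
      (β * (x ^ 2 - y ^ 2) - δ * x * y) * s * t + ((β * (x ^ 2 - y ^ 2) - δ * x * y) * t * s +
      (1 + α + 2 * β * x * y + δ * x ^ 2) * t * t) := by
  rcases (add_nonneg (sq_nonneg x) (sq_nonneg y)).eq_or_lt with h | h
  · have hx : x = 0 := by nlinarith [sq_nonneg x, sq_nonneg y]
    have hy : y = 0 := by nlinarith [sq_nonneg x, sq_nonneg y]
    subst hx hy
    nlinarith [sq_nonneg s, sq_nonneg t]
  · have h3 : 0 < α * (x ^ 2 + y ^ 2) := mul_pos (by linarith) h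
    rw [← sub_nonneg]
    refine (mul_nonneg_iff_of_pos_left h3).1 ?_
    have h4 := add_nonneg (sq_nonneg (α * (x * s + y * t) + β * (x ^ 2 + y ^ 2) * (x * t - y * s)))
      (mul_nonneg h2 (sq_nonneg (x * t - y * s)))
    refine h4.trans_eq ?_
    ring

theorem ball_r {x : E} (hx : x ∈ Metric.closedBall (0 : E) 1) : x 0 ^ 2 + x 1 ^ 2 ≤ 1 := by
  rw [mem_closedBall_zero_iff, EuclideanSpace.norm_eq, Real.sqrt_le_one] at hx
  simpa using hx

theorem positive (A : Fin 2 → Fin 2 → E → ℝ) (hA : ∀ i j, ContDiff ℝ ∞ (A i j))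
    (hE : ∀ x ∈ Metric.closedBall (0 : E) 1, ∀ ξ : Fin 2 → ℝ,
      ∑ i, ξ i ^ 2 ≤ ∑ i, ∑ j, A i j x * ξ i * ξ j)
    (w : E → ℝ) (hw : ContDiff ℝ 2 w) (hs : tsupport w ⊆ Metric.ball 0 1) :
    ∫ x, w x ^ 2 ≤ ∫ x, Op A w x * w x := by
  have hc : HasCompactSupport w := (isCompact_closedBall (0 : E) 1).of_isClosed_subset
    (isClosed_tsupport w) (hs.trans Metric.ball_subset_closedBall)
  have h1 : ∀ j, ContDiff ℝ 1 (pd j w) := fun j =>
    (hw.fderiv_right (m := 1) le_rfl).clm_apply contDiff_const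
  have h2 : ∀ i j, ContDiff ℝ 1 fun y => A i j y * pd j w y := fun i j =>
    ((hA i j).of_le (by simp)).mul (h1 j)
  have h3 : ∀ i j, Continuous (pd i fun y => A i j y * pd j w y) := fun i j =>
    ((h2 i j).continuous_fderiv one_ne_zero).clm_apply continuous_const
  have i1 : ∀ i j, Integrable fun x => w x * pd i (fun y => A i j y * pd j w y) x := fun i j =>
    (hw.continuous.mul (h3 i j)).integrable_of_hasCompactSupport hc.mul_right
  have i2 : ∀ i j, Integrable fun x => pd i w x * (A i j x * pd j w x) := fun i j =>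
    ((h1 i).continuous.mul (h2 i j).continuous).integrable_of_hasCompactSupport
      (hc.fderiv_apply ℝ _).mul_right
  have i3 : Integrable fun x => w x ^ 2 := by
    simp only [pow_two]
    exact (hw.continuous.mul hw.continuous).integrable_of_hasCompactSupport hc.mul_right
  have ibp : ∀ i j, ∫ x, w x * pd i (fun y => A i j y * pd j w y) x =
      -∫ x, pd i w x * (A i j x * pd j w x) := fun i j =>
    integral_mul_fderiv_eq_neg_fderiv_mul_of_integrable (i2 i j) (i1 i j)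
      ((hw.continuous.mul (h2 i j).continuous).integrable_of_hasCompactSupport hc.mul_right)
      (fun x _ => hw.differentiable two_ne_zero x) (fun x _ => (h2 i j).differentiable one_ne_zero x)
  have e : (fun x => Op A w x * w x) =
      fun x => w x ^ 2 - ∑ i, ∑ j, w x * pd i (fun y => A i j y * pd j w y) x := by
    ext x
    simp only [Op, Fin.sum_univ_two]
    ring
  rw [e, integral_sub i3 (integrable_finsetSum _ fun i _ => integrable_finsetSum _ fun j _ =>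
    i1 i j), integral_finsetSum _ fun i _ => integrable_finsetSum _ fun j _ => i1 i j]
  simp only [integral_finsetSum _ fun j _ => i1 _ j, ibp, Finset.sum_neg_distrib, sub_neg_eq_add,
    le_add_iff_nonneg_right, ← integral_finsetSum _ fun j _ => i2 _ j]
  rw [← integral_finsetSum _ fun i _ => integrable_finsetSum _ fun j _ => i2 i j]
  refine integral_nonneg fun x => ?_
  by_cases hx : x ∈ Metric.closedBall (0 : E) 1
  · refine ((Finset.sum_nonneg fun i _ => sq_nonneg _).trans (hE x hx fun i => pd i w x)).trans_eq ?_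
    simp only [Fin.sum_univ_two]
    ring
  · have : fderiv ℝ w x = 0 := image_eq_zero_of_notMem_tsupport fun h =>
      hx (Metric.ball_subset_closedBall (hs (tsupport_fderiv_subset ℝ h)))
    simp [pd, this]

theorem good (α β δ : P) (h : ∀ x ∈ Metric.closedBall (0 : E) 1, 0 ≤ ev α x - 1 ∧
    0 ≤ ev α x * (ev α x + (x 0 ^ 2 + x 1 ^ 2) * ev δ x) - (x 0 ^ 2 + x 1 ^ 2) ^ 2 * ev β x ^ 2) :
    Good fun i j => ev (mat α β δ i j) := by
  have hE : ∀ x ∈ Metric.closedBall (0 : E) 1, ∀ ξ : Fin 2 → ℝ,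
      ∑ i, ξ i ^ 2 ≤ ∑ i, ∑ j, ev (mat α β δ i j) x * ξ i * ξ j := fun x hx ξ => by
    simpa [mat, ev] using quad _ _ _ _ _ (ξ 0) (ξ 1) (h x hx).1 (h x hx).2
  refine ⟨fun i j => ev_smooth _, fun i j => ?_, hE, positive _ (fun i j => ev_smooth _) hE⟩
  fin_cases i <;> fin_cases j <;> rfl

noncomputable def pα₁ : P :=
  C (34555) + C (-265134) * r ^ 1 + C (802125) * r ^ 2 + C (-998949) * r ^ 3 +
    C (20977) * r ^ 4 + C (1172070) * r ^ 5 + C (-1072835) * r ^ 6 + C (307203) * r ^ 7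

noncomputable def pβ₁ : P :=
  C (213638) + C (-2049626) * r ^ 1 + C (8448684) * r ^ 2 + C (-17993977) * r ^ 3 +
    C (20661581) * r ^ 4 + C (-12173749) * r ^ 5 + C (2893473) * r ^ 6

noncomputable def pδ₁ : P :=
  C (248995) + C (-3642332) * r ^ 1 + C (19559766) * r ^ 2 + C (-48610904) * r ^ 3 +
    C (61639942) * r ^ 4 + C (-39109038) * r ^ 5 + C (9937986) * r ^ 6

noncomputable def pa₁ : P :=
  C (1558360) + C (-17360524) * r ^ 1 + C (77634660) * r ^ 2 + C (-178405694) * r ^ 3 +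
    C (222957842) * r ^ 4 + C (-144238272) * r ^ 5 + C (37878192) * r ^ 6

noncomputable def pα₂ : P :=
  C (722) + C (26277) * r ^ 1 + C (190834) * r ^ 2 + C (-1574018) * r ^ 3 + C (3567372) * r ^ 4 +
    C (-2812984) * r ^ 5 + C (255088) * r ^ 6 + C (360147) * r ^ 7

noncomputable def pβ₂ : P :=
  C (-1042) + C (-59550) * r ^ 1 + C (-3632913) * r ^ 2 + C (20673030) * r ^ 3 +
    C (-42647752) * r ^ 4 + C (37720508) * r ^ 5 + C (-12061643) * r ^ 6

noncomputable def pδ₂ : P :=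
  C (11657) + C (-1480272) * r ^ 1 + C (14438320) * r ^ 2 + C (-26283232) * r ^ 3 +
    C (-24083648) * r ^ 4 + C (85698148) * r ^ 5 + C (-45095118) * r ^ 6

noncomputable def pa₂ : P :=
  C (25024) + C (1353800) * r ^ 1 + C (-37356528) * r ^ 2 + C (300556252) * r ^ 3 +
    C (-955609192) * r ^ 4 + C (1271642812) * r ^ 5 + C (-570186760) * r ^ 6

noncomputable def pu : P := (1 - r) * (X 0 * (C 6 * r - C 3) - X 1 * C 2)

noncomputable def pv : P := (1 - r) * (X 0 * (C 3 * r + C 2) - X 1 * (C 11 * r - C 3))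

set_option maxRecDepth 20000 in
theorem eqL (x : E) : ev (-(∑ i, ∑ j, pderiv i (mat pα₁ pβ₁ pδ₁ i j * pderiv j pu)) + pu) x +
    ev pa₁ x * ev pv x = 0 := by
  have e0 : pderiv 0 (X 1 : P) = 0 := pderiv_X_of_ne (by decide)
  have e1 : pderiv 1 (X 0 : P) = 0 := pderiv_X_of_ne (by decide)
  simp only [Fin.sum_univ_two, mat, Matrix.cons_val_zero, Matrix.cons_val_one, pα₁, pβ₁, pδ₁,
    pa₁, pu, pv, r, pderiv_mul, pderiv_pow, map_add, map_sub, pderiv_C, pderiv_one,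
    pderiv_X_self, e0, e1, mul_zero, zero_mul, add_zero, zero_add, mul_one, one_mul, ev, map_neg,
    map_mul, map_pow, eval_C, eval_X, map_one, map_natCast, map_zero, Derivation.map_natCast]
  push_cast
  ring

set_option maxRecDepth 20000 in
theorem eqM (x : E) : -ev pa₂ x * ev pu x +
    ev (-(∑ i, ∑ j, pderiv i (mat pα₂ pβ₂ pδ₂ i j * pderiv j pv)) + pv) x = 0 := by
  have e0 : pderiv 0 (X 1 : P) = 0 := pderiv_X_of_ne (by decide)
  have e1 : pderiv 1 (X 0 : P) = 0 := pderiv_X_of_ne (by decide)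
  simp only [Fin.sum_univ_two, mat, Matrix.cons_val_zero, Matrix.cons_val_one, pα₂, pβ₂, pδ₂,
    pa₂, pu, pv, r, pderiv_mul, pderiv_pow, map_add, map_sub, pderiv_C, pderiv_one,
    pderiv_X_self, e0, e1, mul_zero, zero_mul, add_zero, zero_add, mul_one, one_mul, ev, map_neg,
    map_mul, map_pow, eval_C, eval_X, map_one, map_natCast, map_zero, Derivation.map_natCast]
  push_cast
  ring

/-- A nonzero solution of the coupled system on the unit disc. -/
theorem result : ∃ (A B : Fin 2 → Fin 2 → EuclideanSpace ℝ (Fin 2) → ℝ)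
    (a b u v : EuclideanSpace ℝ (Fin 2) → ℝ), Good A ∧ Good B ∧
    ContDiff ℝ ∞ a ∧ ContDiff ℝ ∞ b ∧ ContDiff ℝ ∞ u ∧ ContDiff ℝ ∞ v ∧
    (∀ x ∈ Metric.closedBall (0 : EuclideanSpace ℝ (Fin 2)) 1, 0 < a x ∧ 0 < b x) ∧
    (∀ x ∈ Metric.ball (0 : EuclideanSpace ℝ (Fin 2)) 1,
      Op A u x + a x * v x = 0 ∧ -b x * u x + Op B v x = 0) ∧
    (∀ x ∈ Metric.sphere (0 : EuclideanSpace ℝ (Fin 2)) 1, u x = 0 ∧ v x = 0) ∧
    ∃ x ∈ Metric.ball (0 : EuclideanSpace ℝ (Fin 2)) 1, u x ≠ 0 := by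
  have h0 : ∀ x : E, 0 ≤ x 0 ^ 2 + x 1 ^ 2 := fun x => by positivity
  refine ⟨_, _, ev pa₁, ev pa₂, ev pu, ev pv, good pα₁ pβ₁ pδ₁ fun x hx => ⟨?_, ?_⟩,
    good pα₂ pβ₂ pδ₂ fun x hx => ⟨?_, ?_⟩, ev_smooth _, ev_smooth _, ev_smooth _, ev_smooth _,
    fun x hx => ⟨?_, ?_⟩, fun x _ => ⟨?_, ?_⟩, fun x hx => ?_,
    EuclideanSpace.single 0 (1 / 2), ?_, ?_⟩
  · refine (al₁ _ (h0 x) (ball_r hx)).trans_eq ?_
    simp [ev, pα₁, α₁, r]
  · refine (det₁ _ (h0 x) (ball_r hx)).trans_eq ?_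
    simp [ev, pα₁, α₁, pβ₁, β₁, pδ₁, δ₁, r]
  · refine (al₂ _ (h0 x) (ball_r hx)).trans_eq ?_
    simp [ev, pα₂, α₂, r]
  · refine (det₂ _ (h0 x) (ball_r hx)).trans_eq ?_
    simp [ev, pα₂, α₂, pβ₂, β₂, pδ₂, δ₂, r]
  · refine (one_pos.trans_le (sub_nonneg.1 (aa₁ _ (h0 x) (ball_r hx)))).trans_eq ?_
    simp [ev, pa₁, a₁, r]
  · refine (one_pos.trans_le (sub_nonneg.1 (aa₂ _ (h0 x) (ball_r hx)))).trans_eq ?_
    simp [ev, pa₂, a₂, r]
  · rw [Op_ev, eqL]
  · rw [Op_ev, eqM]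
  · rw [mem_sphere_zero_iff_norm, EuclideanSpace.norm_eq, Real.sqrt_eq_one] at hx
    have : x 0 ^ 2 + x 1 ^ 2 = 1 := by simpa using hx
    simp [ev, pu, pv, r, this]
  · simp; norm_num
  · simp [ev, pu, r]; norm_num

end Pool.Agent.Results.MP_f60174_an.NonUnique
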